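import Mathlib
import Pool.Agent.Y214.RD.Defs
import Pool.Agent.Y214.RD.Dual

/-!
The dual variety of the reciprocal linear space of a connected matroid is a hypersurface of degree
`2 ^ d` times the beta invariant.
-/

set_option autoImplicit false

namespace Pool.Agent.Results.MP_0aec2a_ag.DualDegree

open MvPolynomial Pool.Agent.Y214.RDual

/-- Let `ℓ 0, ..., ℓ n` be linear forms on `ℂ ^ (d + 1)` that span the dual space and whose matroid
is connected. Then there is an irreducible homogeneous polynomial `F` of degree `2 ^ d * β` such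
that the dual variety of the reciprocal linear space is the hypersurface `F = 0`, and every form of
positive degree that vanishes on the dual variety is a multiple of `F`. -/
theorem result {n d : ℕ} (ℓ : Fin (n + 1) → Module.Dual ℂ (Fin (d + 1) → ℂ))
    (hspan : Submodule.span ℂ (Set.range ℓ) = ⊤) (hconn : IsConn ℓ) :
    ∃ (F : MvPolynomial (Fin (n + 1)) ℂ) (N : ℕ), Irreducible F ∧ F.IsHomogeneous N ∧
      (N : ℤ) = 2 ^ d * betaInv ℓ ∧
      dualVar (recip ℓ) = {u | u ≠ 0 ∧ eval u F = 0} ∧
      ∀ (m : ℕ) (G : MvPolynomial (Fin (n + 1)) ℂ), m ≠ 0 → G.IsHomogeneous m →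
        (∀ u ∈ dualVar (recip ℓ), eval u G = 0) → F ∣ G :=
  dual_recip hspan hconn

end Pool.Agent.Results.MP_0aec2a_ag.DualDegree
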